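import Pool.Agent.Weiss.Q1

/-!
A topologically transitive homeomorphism of a compact metric space with finite entropy for which
the growth rates of both the separated and the spanning numbers oscillate at one scale.
-/

namespace Pool.Agent.Results.MP_307271_an.BothOscillate

open Pool.Agent.Weiss

theorem result : ∃ (X : Type) (_ : MetricSpace X) (_ : CompactSpace X) (F : X ≃ₜ X),
    IsTransitive F ∧ (∃ h : ℝ, HasEntropy F h) ∧
      ∃ ε : ℝ, 0 < ε ∧ spanLower F ε < spanUpper F ε ∧ sepLower F ε < sepUpper F ε :=
  Pool.Agent.Weiss.Q1.main

end Pool.Agent.Results.MP_307271_an.BothOscillate
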