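import Pool.Agent.Weiss.Q2

/-!
A topologically transitive homeomorphism of a compact metric space with finite entropy for which
the growth rate of the spanning numbers oscillates at some scale, while the growth rate of the
separated numbers exists at every scale.
-/

namespace Pool.Agent.Results.MP_307271_an.SpanOnly

open Pool.Agent.Weiss

theorem result : ∃ (X : Type) (_ : MetricSpace X) (_ : CompactSpace X) (F : X ≃ₜ X),
    IsTransitive F ∧ (∃ h : ℝ, HasEntropy F h) ∧
      (∃ ε : ℝ, 0 < ε ∧ spanLower F ε < spanUpper F ε) ∧
      ∀ δ : ℝ, 0 < δ → sepLower F δ = sepUpper F δ :=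
  Pool.Agent.Weiss.Q2.main

end Pool.Agent.Results.MP_307271_an.SpanOnly
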